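import Pool.Agent.Q1.CF

set_option autoImplicit false

/-!
# An orbit other than that of `∞` with several convergents per period

`k = 45`, `d = 15`, `R = -5`, `√45 = [6; 1, 2, 2, 2, 1, 12, …]` with minimal period length `L = 6`.
The orbit of `x₀ = 6` contains the convergents `6/1`, `20/3`, `114/17` with the indices `1, 3, 5`.
-/

namespace Pool.Agent.Results.MP_f17d28_nt.ThreePerPeriod

open Pool.Agent.Q1.CF

/-- `L` is the minimal period length of the continued fraction `√k = [c₀; c₁, c₂, …]`: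
the least `L ≥ 1` with `c_{n+L} = c_n` for all `n ≥ 1`. -/
def IsPeriod (k L : ℕ) : Prop :=
  IsLeast {L : ℕ | 1 ≤ L ∧ ∀ n : ℕ, 1 ≤ n → coef √(k : ℝ) (n + L) = coef √(k : ℝ) n} L

/-- `x` is not of the form `f^n(∞)`, `n ∈ ℤ`. -/
def NotInOrbitOfInfinity (k : ℕ) (d x : ℚ) : Prop :=
  ∀ n : ℕ, (f k d)^[n] none ≠ some x ∧ (f k d)^[n] (some x) ≠ none

/-- `y` lies in the (forward) orbit of `x`. -/
def InOrbit (k : ℕ) (d x y : ℚ) : Prop := ∃ n : ℕ, (f k d)^[n] (some x) = some y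

theorem s_sq : √((45 : ℕ) : ℝ) * √((45 : ℕ) : ℝ) = (45 : ℕ) :=
  Real.mul_self_sqrt (by positivity)

theorem s_lo : ((6 : ℤ) : ℝ) ≤ √((45 : ℕ) : ℝ) := by
  apply Real.le_sqrt_of_sq_le
  norm_num

theorem s_hi : √((45 : ℕ) : ℝ) < ((6 : ℤ) : ℝ) + 1 := by
  rw [Real.sqrt_lt' (by norm_num)]
  norm_num

/-- one period of the expansion -/
theorem period {n : ℕ} (h : cq √((45 : ℕ) : ℝ) n = (√((45 : ℕ) : ℝ) + (6 : ℤ)) / (9 : ℤ)) :
    coef √((45 : ℕ) : ℝ) n = 1 ∧ coef √((45 : ℕ) : ℝ) (n + 1) = 2 ∧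
    coef √((45 : ℕ) : ℝ) (n + 2) = 2 ∧ coef √((45 : ℕ) : ℝ) (n + 3) = 2 ∧
    coef √((45 : ℕ) : ℝ) (n + 4) = 1 ∧ coef √((45 : ℕ) : ℝ) (n + 5) = 12 ∧
    cq √((45 : ℕ) : ℝ) (n + 6) = (√((45 : ℕ) : ℝ) + (6 : ℤ)) / (9 : ℤ) := by
  obtain ⟨c0, h1⟩ := cq_step' 6 9 1 3 4 6 s_sq s_lo s_hi (by norm_num) h (by norm_num)
    (by norm_num) (by norm_num) (by norm_num) (by norm_num)
  obtain ⟨c1, h2⟩ := cq_step' 3 4 2 5 5 6 s_sq s_lo s_hi (by norm_num) h1 (by norm_num)
    (by norm_num) (by norm_num) (by norm_num) (by norm_num)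
  obtain ⟨c2, h3⟩ := cq_step' 5 5 2 5 4 6 s_sq s_lo s_hi (by norm_num) h2 (by norm_num)
    (by norm_num) (by norm_num) (by norm_num) (by norm_num)
  obtain ⟨c3, h4⟩ := cq_step' 5 4 2 3 9 6 s_sq s_lo s_hi (by norm_num) h3 (by norm_num)
    (by norm_num) (by norm_num) (by norm_num) (by norm_num)
  obtain ⟨c4, h5⟩ := cq_step' 3 9 1 6 1 6 s_sq s_lo s_hi (by norm_num) h4 (by norm_num)
    (by norm_num) (by norm_num) (by norm_num) (by norm_num)
  obtain ⟨c5, h6⟩ := cq_step' 6 1 12 6 9 6 s_sq s_lo s_hi (by norm_num) h5 (by norm_num)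
    (by norm_num) (by norm_num) (by norm_num) (by norm_num)
  exact ⟨c0, c1, c2, c3, c4, c5, h6⟩

theorem start : coef √((45 : ℕ) : ℝ) 0 = 6 ∧
    cq √((45 : ℕ) : ℝ) 1 = (√((45 : ℕ) : ℝ) + (6 : ℤ)) / (9 : ℤ) := by
  have h0 : cq √((45 : ℕ) : ℝ) 0 = (√((45 : ℕ) : ℝ) + (0 : ℤ)) / (1 : ℤ) := by
    simp [cq]
  exact cq_step' 0 1 6 6 9 6 s_sq s_lo s_hi (by norm_num) h0 (by norm_num)
    (by norm_num) (by norm_num) (by norm_num) (by norm_num)

theorem all (q : ℕ) : cq √((45 : ℕ) : ℝ) (6 * q + 1) = (√((45 : ℕ) : ℝ) + (6 : ℤ)) / (9 : ℤ) := by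
  induction q with
  | zero => exact start.2
  | succ q ih =>
    have := (period ih).2.2.2.2.2.2
    rw [show 6 * (q + 1) + 1 = 6 * q + 1 + 6 by ring]
    exact this

theorem per6 : ∀ n : ℕ, 1 ≤ n → coef √((45 : ℕ) : ℝ) (n + 6) = coef √((45 : ℕ) : ℝ) n := by
  intro n hn
  obtain ⟨q, r, hr, rfl⟩ : ∃ q r, r < 6 ∧ n = 6 * q + 1 + r :=
    ⟨(n - 1) / 6, (n - 1) % 6, Nat.mod_lt _ (by norm_num), by omega⟩
  obtain ⟨a0, a1, a2, a3, a4, a5, -⟩ := period (all q)
  obtain ⟨b0, b1, b2, b3, b4, b5, -⟩ := period (all (q + 1))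
  have e : ∀ r, 6 * q + 1 + r + 6 = 6 * (q + 1) + 1 + r := by intro r; ring
  rw [e]
  interval_cases r
  · rw [show 6 * (q + 1) + 1 + 0 = 6 * (q + 1) + 1 by ring, show 6 * q + 1 + 0 = 6 * q + 1 by ring,
      a0, b0]
  · rw [a1, b1]
  · rw [a2, b2]
  · rw [a3, b3]
  · rw [a4, b4]
  · rw [a5, b5]

theorem isPeriod : IsPeriod 45 6 := by
  refine ⟨⟨by norm_num, per6⟩, ?_⟩
  rintro L ⟨hL1, hL⟩
  by_contra hlt
  push Not at hlt
  obtain ⟨a0, a1, a2, a3, a4, a5, -⟩ := period (all 0)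
  obtain ⟨b0, b1, b2, b3, b4, b5, -⟩ := period (all 1)
  norm_num at a0 a1 a2 a3 a4 a5 b0 b1 b2 b3 b4 b5
  have h1 := hL 1 (by norm_num)
  have h6 := hL 6 (by norm_num)
  norm_num at h1 h6
  interval_cases L
  · norm_num at h1 h6; rw [a1, a0] at h1; norm_num at h1
  · norm_num at h1 h6; rw [a2, a0] at h1; norm_num at h1
  · norm_num at h1 h6; rw [a3, a0] at h1; norm_num at h1
  · norm_num at h1 h6; rw [b3, a5] at h6; norm_num at h6
  · norm_num at h1 h6; rw [a5, a0] at h1; norm_num at h1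

theorem convs : conv 45 1 = 6 ∧ conv 45 3 = 20 / 3 ∧ conv 45 5 = 114 / 17 := by
  obtain ⟨c0, -⟩ := start
  obtain ⟨a0, a1, a2, a3, a4, a5, -⟩ := period (all 0)
  norm_num at a0 a1 a2 a3 a4 a5
  push_cast at c0
  refine ⟨?_, ?_, ?_⟩ <;>
  · simp only [conv, num, den]
    push_cast
    simp only [c0, a0, a1, a2, a3, a4, a5]
    norm_num

theorem orbit_inf (n : ℕ) : ∃ x : ℚ, (f 45 15)^[n + 1] none = some x ∧ 6 < x := by
  induction n with
  | zero => exact ⟨15, rfl, by norm_num⟩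
  | succ n ih =>
    obtain ⟨x, hx, h6⟩ := ih
    refine ⟨(15 * x + 45) / (x + 15), ?_, ?_⟩
    · rw [Function.iterate_succ_apply', hx]
      simp only [f]
      rw [if_neg (by linarith)]
      norm_num
    · rw [lt_div_iff₀ (by linarith)]; linarith

theorem orbit_six (n : ℕ) : ∃ x : ℚ, (f 45 15)^[n] (some 6) = some x ∧ 0 < x := by
  induction n with
  | zero => exact ⟨6, rfl, by norm_num⟩
  | succ n ih =>
    obtain ⟨x, hx, h6⟩ := ih
    refine ⟨(15 * x + 45) / (x + 15), ?_, by positivity⟩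
    rw [Function.iterate_succ_apply', hx]
    simp only [f]
    rw [if_neg (by linarith)]
    norm_num

/-- **The answer to Q1 is positive.** There are a positive integer `k`, not a perfect square, a
positive rational (even integral) number `d` with `R = 4 d² / (k - d²) ∈ ℤ` and a rational `x₀`, not
of the form `f^n(∞)` with `n ∈ ℤ`, whose orbit contains two convergents of `√k` with indices which are
incongruent modulo the minimal period length `L`; for `k = 45`, `d = 15`, `x₀ = 6` it contains three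
convergents with indices which are pairwise incongruent modulo `L = 6`. -/
theorem result : ∃ (k : ℕ) (d x₀ : ℚ) (L : ℕ), k = 45 ∧ d = 15 ∧ x₀ = 6 ∧ 0 < k ∧ ¬ IsSquare k ∧
    0 < d ∧ (∃ r : ℤ, R k d = r) ∧ IsPeriod k L ∧ NotInOrbitOfInfinity k d x₀ ∧
    ∃ i j l : ℕ, 1 ≤ i ∧ 1 ≤ j ∧ 1 ≤ l ∧ ¬ i ≡ j [MOD L] ∧ ¬ i ≡ l [MOD L] ∧ ¬ j ≡ l [MOD L] ∧
      InOrbit k d x₀ (conv k i) ∧ InOrbit k d x₀ (conv k j) ∧ InOrbit k d x₀ (conv k l) := by
  obtain ⟨v1, v3, v5⟩ := convs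
  refine ⟨45, 15, 6, 6, rfl, rfl, rfl, by norm_num, ?_, by norm_num, ⟨-5, by norm_num [R]⟩, isPeriod,
    ?_, 1, 3, 5, by norm_num, by norm_num, by norm_num, by decide, by decide, by decide, ?_, ?_, ?_⟩
  · rintro ⟨r, hr⟩
    rcases lt_or_ge r 7 with h | h
    · interval_cases r <;> omega
    · nlinarith
  · intro n
    constructor
    · rcases n with _ | n
      · simp
      · obtain ⟨x, hx, h6⟩ := orbit_inf n
        rw [hx]
        intro h
        have := Option.some.inj h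
        linarith
    · obtain ⟨x, hx, -⟩ := orbit_six n
      rw [hx]; simp
  · exact ⟨0, by rw [v1]; rfl⟩
  · have e1 : (f 45 15)^[1] (some 6) = some (45 / 7) := by
      rw [Function.iterate_one]; norm_num [f]
    have e2 : (f 45 15)^[2] (some 6) = some (33 / 5) := by
      rw [Function.iterate_succ_apply', e1]; norm_num [f]
    have e3 : (f 45 15)^[3] (some 6) = some (20 / 3) := by
      rw [Function.iterate_succ_apply', e2]; norm_num [f]
    exact ⟨3, by rw [v3]; exact e3⟩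
  · have e1 : (f 45 15)^[1] (some 6) = some (45 / 7) := by
      rw [Function.iterate_one]; norm_num [f]
    have e2 : (f 45 15)^[2] (some 6) = some (33 / 5) := by
      rw [Function.iterate_succ_apply', e1]; norm_num [f]
    have e3 : (f 45 15)^[3] (some 6) = some (20 / 3) := by
      rw [Function.iterate_succ_apply', e2]; norm_num [f]
    have e4 : (f 45 15)^[4] (some 6) = some (87 / 13) := by
      rw [Function.iterate_succ_apply', e3]; norm_num [f]
    have e5 : (f 45 15)^[5] (some 6) = some (315 / 47) := by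
      rw [Function.iterate_succ_apply', e4]; norm_num [f]
    have e6 : (f 45 15)^[6] (some 6) = some (114 / 17) := by
      rw [Function.iterate_succ_apply', e5]; norm_num [f]
    exact ⟨6, by rw [v5]; exact e6⟩

end Pool.Agent.Results.MP_f17d28_nt.ThreePerPeriod
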